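import Pool.Agent.NH24.GR.All
import Pool.Agent.NH24.GR.Gn

/-!
# MP_446dfa_ag: families of elements of the Grothendieck-Teichmüller Lie algebra which generate a free Lie algebra

`grt_1` is the Lie algebra of the elements `ψ` of the free Lie algebra `Lie[x₀, x₁]` over `ℚ` which satisfy
Drinfeld's relations (antisymmetry, hexagon, pentagon), with the Ihara bracket. Elements of `grt_1`, in any
number, with depths between `r` and `R < 2 r`, independent modulo depth `> R`, generate a free Lie algebra if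
their weights are large compared with `R` times the number of weights. If the monomorphism of the question is an
isomorphism, `grt_1` is a free Lie algebra.
-/

set_option autoImplicit false

namespace Pool.Agent.Results.MP_446dfa_ag.DepthWindowFreeness

open Pool.Agent.H777R4.DM

/-- `P ↦ P(a, b)`: the algebra map from `ℚ⟨x₀, x₁⟩` to a `ℚ`-algebra with `x₀ ↦ a`, `x₁ ↦ b` -/
noncomputable def ev {B : Type} [Ring B] [Algebra ℚ B] (a b : B) : A →ₐ[ℚ] B :=
  MonoidAlgebra.lift ℚ B (FreeMonoid (Fin 2)) (FreeMonoid.lift ![a, b])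

/-- the infinitesimal pure braid relations for four strands (numbered `0, 1, 2, 3`):
`t i j = t j i`, `[t i j, t i k + t j k] = 0`, `[t i j, t k l] = 0` for distinct indices -/
structure IsBraid {B : Type} [Ring B] (t : Fin 4 → Fin 4 → B) : Prop where
  symm : ∀ i j, t i j = t j i
  tri : ∀ i j k, i ≠ j → i ≠ k → j ≠ k → t i j * (t i k + t j k) = (t i k + t j k) * t i j
  disj : ∀ i j k l, i ≠ j → i ≠ k → i ≠ l → j ≠ k → j ≠ l → k ≠ l → t i j * t k l = t k l * t i j

/-- `ψ ∈ grt_1`, the Grothendieck-Teichmüller Lie algebra of Drinfeld: `ψ` is in the free Lie algebra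
`Lie[x₀, x₁]`, has no terms of degree at most two, and satisfies the antisymmetry
`ψ(x₁, x₀) = -ψ(x₀, x₁)`, the hexagon relation `ψ(x₀, x₁) + ψ(x₁, x₂) + ψ(x₂, x₀) = 0` for
`x₀ + x₁ + x₂ = 0`, and the pentagon relation in the Lie algebra of infinitesimal pure braids, i.e.
for all elements `t i j` with the infinitesimal braid relations of all `ℚ`-algebras. -/
structure IsGRT (ψ : A) : Prop where
  mem : ψ ∈ LieX
  low : ∀ u, co ψ u ≠ 0 → 3 ≤ u.length
  anti : ev (x 1) (x 0) ψ = - ψ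
  hex : ψ + ev (x 1) (- x 0 - x 1) ψ + ev (- x 0 - x 1) (x 0) ψ = 0
  pent : ∀ (B : Type) [Ring B] [Algebra ℚ B] (t : Fin 4 → Fin 4 → B), IsBraid t →
    ev (t 0 1) (t 1 2 + t 1 3) ψ + ev (t 0 2 + t 1 2) (t 2 3) ψ =
      ev (t 1 2) (t 2 3) ψ + ev (t 0 1 + t 0 2) (t 1 3 + t 2 3) ψ + ev (t 0 1) (t 1 2) ψ

lemma toGR {ψ : A} (h : IsGRT ψ) : Pool.Agent.NH24.GR.IsGRT ψ :=
  ⟨h.mem, h.low, h.anti, h.hex, fun B _ _ t ht => h.pent B t ⟨ht.symm, ht.tri, ht.disj⟩⟩

/-- Let `1 ≤ r ≤ R < 2 r` and let `W` be a finite set of weights `w > |W| R`. Let `ψ₁, …, ψₙ ∈ grt_1` be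
homogeneous of weights in `W`, with at least `r` letters `x₁` in each word, such that no nonzero linear
combination has more than `R` letters `x₁` in each word. Then there is an injective linear map `φ` on
`ℚ⟨X₁, …, Xₙ⟩` with `φ Xᵢ = ψᵢ` which carries the bracket of the free Lie algebra on `X₁, …, Xₙ` to the Ihara
bracket. So `ψ₁, …, ψₙ` generate, under the Ihara bracket, a free Lie algebra of rank `n`. -/
theorem result (n r R : ℕ) (W : Finset ℕ) (hr : 1 ≤ r) (hR : R < 2 * r) (hW : ∀ w ∈ W, W.card * R < w)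
    (ψ : Fin n → A) (wt : Fin n → ℕ) (hwt : ∀ i, wt i ∈ W) (hgrt : ∀ i, IsGRT (ψ i))
    (hψ : ∀ i u, co (ψ i) u ≠ 0 → u.length = wt i ∧ r ≤ u.count 1)
    (hind : ∀ c : Fin n → ℚ, (∀ u, u.count 1 ≤ R → co (∑ i, c i • ψ i) u = 0) → c = 0) :
    ∃ φ : Al (Fin n) →ₗ[ℚ] A, Function.Injective φ ∧ (∀ i, φ (wd [i]) = ψ i) ∧
      ∀ P ∈ LieN n, ∀ Q ∈ LieN n, φ (P * Q - Q * P) = ihara (φ P) (φ Q) :=
  ⟨PhiN ψ, Pool.Agent.NH24.GR.t_gn _ Pool.Agent.NH24.GR.cls n r R W hr hR hW ψ wt hwt (fun i => toGR (hgrt i)) hψ hind,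
    (Pool.Agent.H358R3.DM.taskFinalN n ψ).1, (Pool.Agent.H358R3.DM.taskFinalN n ψ).2⟩

end Pool.Agent.Results.MP_446dfa_ag.DepthWindowFreeness
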