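import Pool.Agent.NH24.GR.All
import Pool.Agent.NH24.GR.Ga

/-!
# MP_446dfa_ag: any two elements of the Grothendieck-Teichmüller Lie algebra generate a free Lie algebra

`grt_1` is the Lie algebra of the elements `ψ` of the free Lie algebra `Lie[x₀, x₁]` over `ℚ` which satisfy
Drinfeld's relations (antisymmetry, hexagon, pentagon), with the Ihara bracket. Any two linearly independent
elements of `grt_1` generate a free Lie algebra of rank two. In particular commuting elements are proportional.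
If the monomorphism of the question is an isomorphism, `grt_1` is a free Lie algebra.

The proof: in an explicit representation of the infinitesimal braid relations on functions of a marked list of
rational numbers, the part of lowest depth of the pentagon says that the part `f` of lowest depth of `ψ`, as a
function of words in `x₀ ^ k x₁`, satisfies `f(u a v) = (-1) ^ |u| f(a (rev(u) ⧢ v))`. So this part is a Lie
element, and the argument for the double shuffle Lie algebra (`Pool.Agent.H777R4.DM`) can be used.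
-/

set_option autoImplicit false

namespace Pool.Agent.Results.MP_446dfa_ag.TwoGeneratorFreeness

open Pool.Agent.H777R4.DM

/-- `P ↦ P(a, b)`: the algebra map from `ℚ⟨x₀, x₁⟩` to a `ℚ`-algebra with `x₀ ↦ a`, `x₁ ↦ b` -/
noncomputable def ev {B : Type} [Ring B] [Algebra ℚ B] (a b : B) : A →ₐ[ℚ] B :=
  MonoidAlgebra.lift ℚ B (FreeMonoid (Fin 2)) (FreeMonoid.lift ![a, b])

/-- the infinitesimal pure braid relations for four strands (numbered `0, 1, 2, 3`):
`t i j = t j i`, `[t i j, t i k + t j k] = 0`, `[t i j, t k l] = 0` for distinct indices -/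
structure IsBraid {B : Type} [Ring B] (t : Fin 4 → Fin 4 → B) : Prop where
  symm : ∀ i j, t i j = t j i
  tri : ∀ i j k, i ≠ j → i ≠ k → j ≠ k → t i j * (t i k + t j k) = (t i k + t j k) * t i j
  disj : ∀ i j k l, i ≠ j → i ≠ k → i ≠ l → j ≠ k → j ≠ l → k ≠ l → t i j * t k l = t k l * t i j

/-- `ψ ∈ grt_1`, the Grothendieck-Teichmüller Lie algebra of Drinfeld: `ψ` is in the free Lie algebra
`Lie[x₀, x₁]`, has no terms of degree at most two, and satisfies the antisymmetry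
`ψ(x₁, x₀) = -ψ(x₀, x₁)`, the hexagon relation `ψ(x₀, x₁) + ψ(x₁, x₂) + ψ(x₂, x₀) = 0` for
`x₀ + x₁ + x₂ = 0`, and the pentagon relation in the Lie algebra of infinitesimal pure braids, i.e.
for all elements `t i j` with the infinitesimal braid relations of all `ℚ`-algebras. -/
structure IsGRT (ψ : A) : Prop where
  mem : ψ ∈ LieX
  low : ∀ u, co ψ u ≠ 0 → 3 ≤ u.length
  anti : ev (x 1) (x 0) ψ = - ψ
  hex : ψ + ev (x 1) (- x 0 - x 1) ψ + ev (- x 0 - x 1) (x 0) ψ = 0
  pent : ∀ (B : Type) [Ring B] [Algebra ℚ B] (t : Fin 4 → Fin 4 → B), IsBraid t →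
    ev (t 0 1) (t 1 2 + t 1 3) ψ + ev (t 0 2 + t 1 2) (t 2 3) ψ =
      ev (t 1 2) (t 2 3) ψ + ev (t 0 1 + t 0 2) (t 1 3 + t 2 3) ψ + ev (t 0 1) (t 1 2) ψ

lemma toGR {ψ : A} (h : IsGRT ψ) : Pool.Agent.NH24.GR.IsGRT ψ :=
  ⟨h.mem, h.low, h.anti, h.hex, fun B _ _ t ht => h.pent B t ⟨ht.symm, ht.tri, ht.disj⟩⟩

/-- Let `ψ₁, ψ₂` be linearly independent elements of `grt_1`. There is an injective linear map `φ` on
`ℚ⟨x₀, x₁⟩` with `φ x₀ = ψ₁`, `φ x₁ = ψ₂` which carries the Lie bracket `[P, Q] = PQ - QP` of the free Lie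
algebra `Lie[x₀, x₁]` to the Ihara bracket. So `ψ₁, ψ₂` generate, under the Ihara bracket, a free Lie algebra
of rank two. -/
theorem result (ψ₁ ψ₂ : A) (h₁ : IsGRT ψ₁) (h₂ : IsGRT ψ₂) (hli : LinearIndependent ℚ ![ψ₁, ψ₂]) :
    ∃ φ : A →ₗ[ℚ] A, Function.Injective φ ∧ φ (x 0) = ψ₁ ∧ φ (x 1) = ψ₂ ∧
      ∀ P ∈ LieX, ∀ Q ∈ LieX, φ (P * Q - Q * P) = ihara (φ P) (φ Q) :=
  ⟨Phi ψ₁ ψ₂, Pool.Agent.NH24.GR.t_ga _ Pool.Agent.NH24.GR.cls ψ₁ ψ₂ (toGR h₁) (toGR h₂) hli,
    phi_x0 ψ₁ ψ₂, phi_x1 ψ₁ ψ₂, fun P hP Q hQ => phi_lie ψ₁ ψ₂ P Q hP hQ⟩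

end Pool.Agent.Results.MP_446dfa_ag.TwoGeneratorFreeness
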